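import Pool.Agent.X64.Bip.Final

/-!
# MP_9caa86_co, Q2: the poly-line area `A_p(n)` of upward planar bipartite DAGs is quadratic

For every `n ≥ 96` there is a bipartite DAG on `n` vertices that has an upward planar poly-line
grid drawing, and every such drawing has area at least `n² / 1024`. Hence
`A_p(n) ≥ n² / 1024`; with the known upper bound `O(n²)` this gives `A_p(n) = Θ(n²)`.
-/

namespace Pool.Agent.Results.MP_9caa86_co.PolylineQuadratic

open Pool.Agent.X64.Bip

theorem result (n : ℕ) (hn : 96 ≤ n) :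
    n ^ 2 ≤ 1024 * Ap n ∧ ∃ G : BipDAG n, Nonempty (Drawing G) ∧
      ∀ (D : Drawing G) (a b : ℤ) (W H : ℕ), D.InBox a b W H → n ^ 2 ≤ 1024 * (W * H) :=
  main n hn

end Pool.Agent.Results.MP_9caa86_co.PolylineQuadratic
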